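import Pool.Agent.Q49.EF.Values

/-!
# The effective Shafarevich conjecture and decision problems

Numbers are used as codes of abelian schemes over `ℤ[1/N]` of relative dimension `g`, respectively of
principally polarized ones; an algorithm is a computable function (Mathlib's `Computable`). Question Q1
says that there is an algorithm which computes from `N` and `g` a bound for the stable Faltings heights
of all abelian schemes `A` of relative dimension `g` over `ℤ[1/N]`.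

**Theorem.** Let `N₀, m ≥ 1` be integers. The following are equivalent.

1. Question Q1.
2. There is an algorithm which computes the number of isomorphism classes of principally polarized abelian
   schemes over `ℤ[1/N]` of relative dimension `g`, for all `N` divisible by `N₀` and all `g` divisible
   by `m`.
3. The same as (2) for the number of isomorphism classes of abelian schemes.
4. The same as (2) for the number of isogeny classes of abelian schemes.
5. There is an algorithm which decides for `N` divisible by `N₀`, `g` divisible by `m`, and a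
   polynomial (of degree `2g`) for each prime in the finite set `Σ(N, g)` if there is an abelian scheme over
   `ℤ[1/N]` of relative dimension `g` for which these are the characteristic polynomials of Frobenius.
6. There is an algorithm which computes for `N` divisible by `N₀` and any `g` the number of isogeny
   classes of simple abelian schemes over `ℤ[1/N]` of relative dimension `g`.
7. The decision problem (5) for simple abelian schemes, for `N` divisible by `N₀` and all `g`.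

Here `Σ(N, g)` is a finite set of primes, computable from `N` and `g`, such that abelian varieties of
dimension `g` over `ℚ` with good reduction outside `N` are isogenous if they have the same characteristic
polynomials of Frobenius at these primes (Faltings). The known facts are in `IsSetting`: besides
Faltings' theorems these are decidability of good reduction, isomorphism and simplicity; effective
versions of the theorem of Northcott (with Zarhin's trick and the isogeny theorem in the case without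
polarizations); the effective isogeny theorem (Masser and Wüstholz; Gaudron and Rémond); powers, Zarhin's
trick and Poincare reducibility.
-/

set_option autoImplicit false

namespace Pool.Agent.Results.MP_07b2d0_nt.Decidability

open Pool.Agent.Q49.EF

/-- Abelian schemes over `ℤ[1/N]`. -/
structure Setting where
  /-- `AV (N, g) x`: `x` is the least code of an abelian scheme of relative dimension `g` over `ℤ[1/N]`
  (isomorphic ones are identified); false for `N = 0` -/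
  AV : ℕ × ℕ → ℕ → Prop
  /-- the same for principally polarized abelian schemes -/
  PP : ℕ × ℕ → ℕ → Prop
  /-- the stable Faltings height of the abelian scheme with code `x` -/
  h : ℕ → ℝ
  /-- the same for principally polarized abelian schemes -/
  hP : ℕ → ℝ
  /-- isogenous -/
  Isog : ℕ → ℕ → Prop
  /-- simple -/
  Simple : ℕ → Prop
  /-- `frob ((N, g), x)`: the code of the list of the characteristic polynomials of Frobenius at the primes in
  `Σ(N, g)` -/
  frob : (ℕ × ℕ) × ℕ → ℕ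

/-- The known facts. -/
structure IsSetting (D : Setting) : Prop where
  decidable : ComputablePred fun z : (ℕ × ℕ) × ℕ => D.AV z.1 z.2
  decidable_pp : ComputablePred fun z : (ℕ × ℕ) × ℕ => D.PP z.1 z.2
  decidable_simple : ComputablePred fun z : (ℕ × ℕ) × ℕ => D.AV z.1 z.2 ∧ D.Simple z.2
  /-- Faltings, Zarhin -/
  finite : ∀ a, {x | D.AV a x}.Finite
  finite_pp : ∀ a, {x | D.PP a x}.Finite
  /-- upper bounds for the height of a given abelian scheme can be computed -/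
  upper : ∃ u : ℕ → ℕ, Computable u ∧ ∀ a x, D.AV a x → D.h x ≤ u x
  upper_pp : ∃ u : ℕ → ℕ, Computable u ∧ ∀ a x, D.PP a x → D.hP x ≤ u x
  /-- the abelian schemes of bounded height can be found effectively -/
  northcott : ∃ B : (ℕ × ℕ) × ℕ → ℕ, Computable B ∧ ∀ (a : ℕ × ℕ) (m x : ℕ), D.AV a x → D.h x ≤ m →
    x < B (a, m)
  northcott_pp : ∃ B : (ℕ × ℕ) × ℕ → ℕ, Computable B ∧ ∀ (a : ℕ × ℕ) (m x : ℕ), D.PP a x → D.hP x ≤ m →
    x < B (a, m)
  frob_computable : Computable D.frob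
  /-- by the Weil bounds there are only finitely many possible polynomials -/
  weil : ∃ w : ℕ × ℕ → ℕ, Computable w ∧ ∀ a x, D.AV a x → D.frob (a, x) < w a
  /-- Faltings -/
  faltings : ∀ a x y, D.AV a x → D.AV a y → (D.frob (a, x) = D.frob (a, y) ↔ D.Isog x y)
  /-- the effective isogeny theorem -/
  isogeny : ∃ κ : (ℕ × ℕ) × ℕ → ℕ, Computable κ ∧ ∀ (a : ℕ × ℕ) (m x y : ℕ), D.AV a x → D.AV a y →
    D.Isog x y → D.h y ≤ m → D.h x ≤ κ (a, m)
  /-- restriction to `ℤ[1/(N M)]` -/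
  restrict : ∀ N g M x, 0 < M → D.AV (N, g) x → ∃ y, D.AV (N * M, g) y ∧ D.h y = D.h x
  /-- powers -/
  power : ∀ N g m x, 0 < m → D.AV (N, g) x → ∃ y, D.AV (N, m * g) y ∧ D.h y = m * D.h x
  /-- `(A × A^∨)^4` -/
  zarhin : ∀ N g x, D.AV (N, g) x → ∃ y, D.PP (N, 8 * g) y ∧ D.hP y = 8 * D.h x
  /-- forget the polarization -/
  forget : ∀ a y, D.PP a y → ∃ x, D.AV a x ∧ D.h x = D.hP y
  /-- `A` is isogenous to the product of simple `A_i` of dimension at most `g`, at most `g` many, and the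
  `A_i` can be replaced by isogenous ones -/
  poincare : ∀ N g x, D.AV (N, g) x → ∃ L : List (ℕ × ℕ), L.length ≤ g ∧
    (∀ i ∈ L, i.1 ≤ g ∧ D.AV (N, i.1) i.2 ∧ D.Simple i.2) ∧
    ∀ r : ℕ × ℕ → ℕ, (∀ i ∈ L, D.AV (N, i.1) (r i) ∧ D.Isog i.2 (r i)) →
      ∃ y, D.AV (N, g) y ∧ D.Isog x y ∧ D.h y = (L.map fun i => D.h (r i)).sum

variable {D : Setting}

/-- (1) -/
def Q1 (D : Setting) : Prop :=
  ∃ c : ℕ × ℕ → ℕ, Computable c ∧ ∀ a x, D.AV a x → D.h x ≤ c a

/-- the isogeny classes -/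
def classes (D : Setting) (a : ℕ × ℕ) : Set (Set ℕ) :=
  {S | ∃ x, D.AV a x ∧ S = {y | D.AV a y ∧ D.Isog x y}}

/-- the isogeny classes of simple abelian schemes -/
def simpleClasses (D : Setting) (a : ℕ × ℕ) : Set (Set ℕ) :=
  {S | ∃ x, (D.AV a x ∧ D.Simple x) ∧ S = {y | (D.AV a y ∧ D.Simple y) ∧ D.Isog x y}}

/-- `N₀` divides `N` and `m` divides `g` -/
def dom (N₀ m : ℕ) (a : ℕ × ℕ) : Bool := (a.1 % N₀ == 0) && (a.2 % m == 0)

lemma dom_computable (N₀ m : ℕ) : Computable (dom N₀ m) := by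
  have h1 : Primrec fun a : ℕ × ℕ => (a.1 % N₀ == 0) :=
    Primrec.beq.comp (Primrec.nat_mod.comp Primrec.fst (Primrec.const N₀)) (Primrec.const 0)
  have h2 : Primrec fun a : ℕ × ℕ => (a.2 % m == 0) :=
    Primrec.beq.comp (Primrec.nat_mod.comp Primrec.snd (Primrec.const m)) (Primrec.const 0)
  exact (Primrec.and.comp h1 h2).to_comp

lemma dom_iff (N₀ m : ℕ) (a : ℕ × ℕ) : dom N₀ m a = true ↔ N₀ ∣ a.1 ∧ m ∣ a.2 := by
  unfold dom
  rw [Bool.and_eq_true, beq_iff_eq, beq_iff_eq, Nat.dvd_iff_mod_eq_zero, Nat.dvd_iff_mod_eq_zero]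

/-- the bound for principally polarized abelian schemes -/
def PPBound (D : Setting) (N₀ m : ℕ) : Prop :=
  ∃ c : ℕ × ℕ → ℕ, Computable c ∧ ∀ a x, dom N₀ m a = true → D.PP a x → D.hP x ≤ c a

/-- the bound for some abelian schemes -/
def AVBound (D : Setting) (N₀ m : ℕ) : Prop :=
  ∃ c : ℕ × ℕ → ℕ, Computable c ∧ ∀ a x, dom N₀ m a = true → D.AV a x → D.h x ≤ c a

lemma le_of_mul_le {x c m : ℝ} (hm : 1 ≤ m) (hc : 0 ≤ c) (h : m * x ≤ c) : x ≤ c := by
  by_contra h1
  push Not at h1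
  have h2 : 0 < x := lt_of_le_of_lt hc h1
  nlinarith [mul_le_mul_of_nonneg_right hm h2.le]

lemma q1_of_pp (hD : IsSetting D) {N₀ m : ℕ} (hN : 0 < N₀) (hm : 0 < m) (h : PPBound D N₀ m) :
    Q1 D := by
  obtain ⟨c, h1, h2⟩ := h
  refine ⟨fun a => c (a.1 * N₀, 8 * (m * a.2)), ?_, fun a x hx => ?_⟩
  · have a1 : Computable fun x : ℕ × ℕ => x.1 * N₀ :=
      (Primrec.nat_mul.comp Primrec.fst (Primrec.const N₀)).to_comp
    have a2 : Computable fun x : ℕ × ℕ => 8 * (m * x.2) :=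
      (Primrec.nat_mul.comp (Primrec.const 8)
        (Primrec.nat_mul.comp (Primrec.const m) Primrec.snd)).to_comp
    exact h1.comp (Computable.pair a1 a2)
  · obtain ⟨N, g⟩ := a
    obtain ⟨x', h3, h3'⟩ := hD.restrict N g N₀ x hN hx
    obtain ⟨x'', h4, h4'⟩ := hD.power (N * N₀) g m x' hm h3
    obtain ⟨y, h5, h6⟩ := hD.zarhin (N * N₀) (m * g) x'' h4
    have h7 := h2 (N * N₀, 8 * (m * g)) y ((dom_iff _ _ _).mpr
      ⟨dvd_mul_left _ _, (dvd_mul_right m g).mul_left 8⟩) h5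
    rw [h6, h4', h3'] at h7
    have h8 : (1 : ℝ) ≤ m := by exact_mod_cast hm
    have h9 : (0 : ℝ) ≤ (c (N * N₀, 8 * (m * g)) : ℝ) := Nat.cast_nonneg _
    refine le_of_mul_le h8 h9 (le_of_mul_le (by norm_num : (1 : ℝ) ≤ 8) h9 h7)

lemma pp_of_av (hD : IsSetting D) {N₀ m : ℕ} (h : AVBound D N₀ m) : PPBound D N₀ m := by
  obtain ⟨c, h1, h2⟩ := h
  refine ⟨c, h1, fun a y ha hy => ?_⟩
  obtain ⟨x, h3, h4⟩ := hD.forget a y hy
  exact h4 ▸ h2 a x ha h3

/-- from one member in each isogeny class to all -/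
lemma av_of_one (hD : IsSetting D) {N₀ m : ℕ}
    (h : ∃ B : ℕ × ℕ → ℕ, Computable B ∧ ∀ a x, dom N₀ m a = true → D.AV a x →
      ∃ y < B a, D.AV a y ∧ D.Isog x y) : AVBound D N₀ m := by
  obtain ⟨B, h1, h2⟩ := h
  obtain ⟨u, h3, h4⟩ := hD.upper
  obtain ⟨κ, h5, h6⟩ := hD.isogeny
  have h7 : Computable fun z : (ℕ × ℕ) × ℕ => u z.2 := h3.comp Computable.snd
  refine ⟨fun a => κ (a, mx (fun z : (ℕ × ℕ) × ℕ => u z.2) a (B a)),
    h5.comp (Computable.pair Computable.id (mx_comp h7 h1)), fun a x ha hx => ?_⟩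
  obtain ⟨y, h8, h9, h10⟩ := h2 a x ha hx
  refine h6 a _ x y hx h9 h10 ((h4 a y h9).trans ?_)
  exact_mod_cast le_mx (fun z : (ℕ × ℕ) × ℕ => u z.2) a h8

/-- from one member in each simple isogeny class to all -/
lemma av_of_simple (hD : IsSetting D) {N₀ : ℕ}
    (h : ∃ B : ℕ × ℕ → ℕ, Computable B ∧ ∀ a x, dom N₀ 1 a = true → D.AV a x → D.Simple x →
      ∃ y < B a, D.AV a y ∧ D.Isog x y) : AVBound D N₀ 1 := by
  obtain ⟨B, h1, h2⟩ := h
  obtain ⟨u, h3, h4⟩ := hD.upper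
  obtain ⟨κ, h5, h6⟩ := hD.isogeny
  have h7 : Computable fun z : (ℕ × ℕ) × ℕ => u z.2 := h3.comp Computable.snd
  -- the bound `b (N, g)` for one member, and its maximum over all dimensions `≤ g`
  have h8 : Computable fun a : ℕ × ℕ => mx (fun z : (ℕ × ℕ) × ℕ => u z.2) a (B a) := mx_comp h7 h1
  have h9 : Computable fun z : (ℕ × ℕ) × ℕ =>
      mx (fun z : (ℕ × ℕ) × ℕ => u z.2) (z.1.1, z.2) (B (z.1.1, z.2)) :=
    h8.comp (Computable.pair (Computable.fst.comp Computable.fst) Computable.snd)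
  have h10 : Computable fun a : ℕ × ℕ => a.2 * mx (fun z : (ℕ × ℕ) × ℕ =>
      mx (fun z : (ℕ × ℕ) × ℕ => u z.2) (z.1.1, z.2) (B (z.1.1, z.2))) a (a.2 + 1) :=
    Primrec.nat_mul.to_comp.comp Computable.snd
      (mx_comp h9 (Computable.succ.comp Computable.snd))
  refine ⟨fun a => κ (a, a.2 * mx (fun z : (ℕ × ℕ) × ℕ =>
      mx (fun z : (ℕ × ℕ) × ℕ => u z.2) (z.1.1, z.2) (B (z.1.1, z.2))) a (a.2 + 1)),
    h5.comp (Computable.pair Computable.id h10), fun a x ha hx => ?_⟩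
  classical
  obtain ⟨N, g⟩ := a
  have hN : N₀ ∣ N := ((dom_iff _ _ _).mp ha).1
  obtain ⟨L, h11, h12, h13⟩ := hD.poincare N g x hx
  have h14 : ∀ i : ℕ × ℕ, ∃ y, i ∈ L → (y < B (N, i.1) ∧ D.AV (N, i.1) y ∧ D.Isog i.2 y) := by
    intro i
    by_cases hi : i ∈ L
    · obtain ⟨y, b1, b2, b3⟩ := h2 (N, i.1) i.2 ((dom_iff _ _ _).mpr ⟨hN, one_dvd _⟩)
        (h12 i hi).2.1 (h12 i hi).2.2
      exact ⟨y, fun _ => ⟨b1, b2, b3⟩⟩
    · exact ⟨0, fun h => absurd h hi⟩
  choose r hr using h14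
  obtain ⟨y, h15, h16, h17⟩ := h13 r fun i hi => (hr i hi).2
  refine h6 (N, g) _ x y hx h15 h16 ?_
  rw [h17]
  set M : ℕ := mx (fun z : (ℕ × ℕ) × ℕ =>
      mx (fun z : (ℕ × ℕ) × ℕ => u z.2) (z.1.1, z.2) (B (z.1.1, z.2))) (N, g) (g + 1) with hM
  have h18 : ∀ i ∈ L, D.h (r i) ≤ (M : ℝ) := by
    intro i hi
    refine (h4 _ _ (hr i hi).2.1).trans ?_
    have b1 := le_mx (fun z : (ℕ × ℕ) × ℕ => u z.2) (N, i.1) (hr i hi).1
    have b2 := le_mx (fun z : (ℕ × ℕ) × ℕ =>
      mx (fun z : (ℕ × ℕ) × ℕ => u z.2) (z.1.1, z.2) (B (z.1.1, z.2))) (N, g)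
      (Nat.lt_succ_of_le (h12 i hi).1)
    exact_mod_cast b1.trans b2
  have h19 : (L.map fun i => D.h (r i)).sum ≤ L.length * (M : ℝ) := by
    have := List.sum_le_card_nsmul (L.map fun i => D.h (r i)) (M : ℝ) (by
      intro y hy
      obtain ⟨i, hi, rfl⟩ := List.mem_map.mp hy
      exact h18 i hi)
    simpa using this
  refine h19.trans ?_
  push_cast
  exact mul_le_mul_of_nonneg_right (by exact_mod_cast h11) (Nat.cast_nonneg _)

lemma av_mono {N₀ m : ℕ} (h : AVBound D N₀ 1) : AVBound D N₀ m := by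
  obtain ⟨c, h1, h2⟩ := h
  exact ⟨c, h1, fun a x ha hx => h2 a x ((dom_iff _ _ _).mpr
    ⟨((dom_iff _ _ _).mp ha).1, one_dvd _⟩) hx⟩

/-- **The effective Shafarevich conjecture and decision problems.** See the explanations above. -/
theorem result (hD : IsSetting D) (N₀ m : ℕ) (hN : 0 < N₀) (hm : 0 < m) : List.TFAE [
    ∃ c : ℕ × ℕ → ℕ, Computable c ∧ ∀ a x, D.AV a x → D.h x ≤ c a,
    ∃ n : ℕ × ℕ → ℕ, Computable n ∧ ∀ N g, N₀ ∣ N → m ∣ g → {x | D.PP (N, g) x}.ncard = n (N, g),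
    ∃ n : ℕ × ℕ → ℕ, Computable n ∧ ∀ N g, N₀ ∣ N → m ∣ g → {x | D.AV (N, g) x}.ncard = n (N, g),
    ∃ n : ℕ × ℕ → ℕ, Computable n ∧ ∀ N g, N₀ ∣ N → m ∣ g → (classes D (N, g)).ncard = n (N, g),
    ComputablePred fun z : (ℕ × ℕ) × ℕ =>
      (N₀ ∣ z.1.1 ∧ m ∣ z.1.2) ∧ ∃ x, D.AV z.1 x ∧ D.frob (z.1, x) = z.2,
    ∃ n : ℕ × ℕ → ℕ, Computable n ∧ ∀ N g, N₀ ∣ N → (simpleClasses D (N, g)).ncard = n (N, g),
    ComputablePred fun z : (ℕ × ℕ) × ℕ =>
      N₀ ∣ z.1.1 ∧ ∃ x, (D.AV z.1 x ∧ D.Simple x) ∧ D.frob (z.1, x) = z.2] := by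
  obtain ⟨p, hp, hp'⟩ := ComputablePred.computable_iff.mp hD.decidable
  obtain ⟨r, hr, hr'⟩ := ComputablePred.computable_iff.mp hD.decidable_pp
  obtain ⟨s, hs, hs'⟩ := ComputablePred.computable_iff.mp hD.decidable_simple
  have hpi : ∀ a x, p (a, x) = true ↔ D.AV a x := fun a x => (iff_of_eq (congrFun hp' (a, x))).symm
  have hri : ∀ a x, r (a, x) = true ↔ D.PP a x := fun a x => (iff_of_eq (congrFun hr' (a, x))).symm
  have hsi : ∀ a x, s (a, x) = true ↔ D.AV a x ∧ D.Simple x := fun a x =>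
    (iff_of_eq (congrFun hs' (a, x))).symm
  have hpf : ∀ a, {x | p (a, x) = true}.Finite := fun a => (hD.finite a).subset fun x hx =>
    (hpi a x).mp hx
  have hrf : ∀ a, {x | r (a, x) = true}.Finite := fun a => (hD.finite_pp a).subset fun x hx =>
    (hri a x).mp hx
  have hsf : ∀ a, {x | s (a, x) = true}.Finite := fun a => (hD.finite a).subset fun x hx =>
    ((hsi a x).mp hx).1
  have hdom := dom_computable N₀ m
  have hdom1 := dom_computable N₀ 1
  have hdi : ∀ N g, N₀ ∣ N → m ∣ g → dom N₀ m (N, g) = true := fun N g h1 h2 =>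
    (dom_iff N₀ m (N, g)).mpr ⟨h1, h2⟩
  obtain ⟨w, hw, hw'⟩ := hD.weil
  obtain ⟨u, hu, hu'⟩ := hD.upper
  have hu2 : Computable fun z : (ℕ × ℕ) × ℕ => u z.2 := hu.comp Computable.snd
  -- the three applications of the general result
  have e1 := bound_iff_card hp hpf hdom
  have e2 := bound_iff_card hr hrf hdom
  have e3 := values_tfae hp hpf hD.frob_computable hw
    (fun a x hx => hw' a x ((hpi a x).mp hx)) hdom
  have e4 := values_tfae hs hsf hD.frob_computable hw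
    (fun a x hx => hw' a x ((hsi a x).mp hx).1) hdom1
  have a01 := e3.out 0 1
  have a02 := e3.out 0 2
  have b01 := e4.out 0 1
  have b02 := e4.out 0 2
  -- Q1 bounds the codes
  have codes : Q1 D → ∃ B : ℕ × ℕ → ℕ, Computable B ∧ ∀ a x, D.AV a x → x < B a := by
    rintro ⟨c, h1, h2⟩
    obtain ⟨B, h3, h4⟩ := hD.northcott
    exact ⟨fun a => B (a, c a), h3.comp (Computable.pair Computable.id h1),
      fun a x hx => h4 a _ x hx (h2 a x hx)⟩
  tfae_have 1 → 2 := by
    rintro ⟨c, h1, h2⟩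
    obtain ⟨B, h3, h4⟩ := hD.northcott_pp
    obtain ⟨n, h5, h6⟩ := e2.mp ⟨fun a => B (a, c a), h3.comp (Computable.pair Computable.id h1),
      fun a x _ hx => by
        obtain ⟨y, h7, h8⟩ := hD.forget a x ((hri a x).mp hx)
        exact h4 a _ x ((hri a x).mp hx) (h8 ▸ h2 a y h7)⟩
    refine ⟨n, h5, fun N g h7 h8 => ?_⟩
    rw [← h6 (N, g) (hdi N g h7 h8)]
    exact congrArg Set.ncard (Set.ext fun x => (hri _ x).symm)
  tfae_have 2 → 1 := by
    rintro ⟨n, h1, h2⟩
    obtain ⟨B, h3, h4⟩ := e2.mpr ⟨n, h1, fun a ha => by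
      obtain ⟨N, g⟩ := a
      obtain ⟨h5, h6⟩ := (dom_iff _ _ _).mp ha
      rw [← h2 N g h5 h6]
      exact congrArg Set.ncard (Set.ext fun x => hri _ x)⟩
    obtain ⟨v, hv, hv'⟩ := hD.upper_pp
    have hv2 : Computable fun z : (ℕ × ℕ) × ℕ => v z.2 := hv.comp Computable.snd
    refine q1_of_pp hD hN hm ⟨fun a => mx (fun z : (ℕ × ℕ) × ℕ => v z.2) a (B a), mx_comp hv2 h3,
      fun a x ha hx => (hv' a x hx).trans ?_⟩
    exact_mod_cast le_mx (fun z : (ℕ × ℕ) × ℕ => v z.2) a (h4 a x ha ((hri a x).mpr hx))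
  tfae_have 1 → 3 := by
    intro h
    obtain ⟨B, h1, h2⟩ := codes h
    obtain ⟨n, h5, h6⟩ := e1.mp ⟨B, h1, fun a x _ hx => h2 a x ((hpi a x).mp hx)⟩
    refine ⟨n, h5, fun N g h7 h8 => ?_⟩
    rw [← h6 (N, g) (hdi N g h7 h8)]
    exact congrArg Set.ncard (Set.ext fun x => (hpi _ x).symm)
  tfae_have 3 → 1 := by
    rintro ⟨n, h1, h2⟩
    obtain ⟨B, h3, h4⟩ := e1.mpr ⟨n, h1, fun a ha => by
      obtain ⟨N, g⟩ := a
      obtain ⟨h5, h6⟩ := (dom_iff _ _ _).mp ha
      rw [← h2 N g h5 h6]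
      exact congrArg Set.ncard (Set.ext fun x => hpi _ x)⟩
    refine q1_of_pp hD hN hm (pp_of_av hD ⟨fun a => mx (fun z : (ℕ × ℕ) × ℕ => u z.2) a (B a),
      mx_comp hu2 h3, fun a x ha hx => (hu' a x hx).trans ?_⟩)
    exact_mod_cast le_mx (fun z : (ℕ × ℕ) × ℕ => u z.2) a (h4 a x ha ((hpi a x).mpr hx))
  -- isogeny classes
  have hcl : ∀ a, (classes D a).ncard = {v | ∃ x, p (a, x) = true ∧ D.frob (a, x) = v}.ncard := by
    intro a
    refine (ncard_classes (P := D.AV a) (R := D.Isog) (q := fun x => D.frob (a, x))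
      (fun x y hx hy => hD.faltings a x y hx hy)).trans ?_
    exact congrArg Set.ncard (Set.ext fun v => exists_congr fun x => and_congr_left' (hpi a x).symm)
  have hcs : ∀ a, (simpleClasses D a).ncard =
      {v | ∃ x, s (a, x) = true ∧ D.frob (a, x) = v}.ncard := by
    intro a
    refine (ncard_classes (P := fun x => D.AV a x ∧ D.Simple x) (R := D.Isog)
      (q := fun x => D.frob (a, x)) (fun x y hx hy => hD.faltings a x y hx.1 hy.1)).trans ?_
    exact congrArg Set.ncard (Set.ext fun v => exists_congr fun x => and_congr_left' (hsi a x).symm)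
  have one : Q1 D → ∃ B : ℕ × ℕ → ℕ, Computable B ∧ ∀ a x, dom N₀ m a = true → p (a, x) = true →
      ∃ y < B a, p (a, y) = true ∧ D.frob (a, y) = D.frob (a, x) := by
    intro h
    obtain ⟨B, h1, h2⟩ := codes h
    exact ⟨B, h1, fun a x _ hx => ⟨x, h2 a x ((hpi a x).mp hx), hx, rfl⟩⟩
  have ofone : (∃ B : ℕ × ℕ → ℕ, Computable B ∧ ∀ a x, dom N₀ m a = true → p (a, x) = true →
      ∃ y < B a, p (a, y) = true ∧ D.frob (a, y) = D.frob (a, x)) → Q1 D := by
    rintro ⟨B, h1, h2⟩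
    refine q1_of_pp hD hN hm (pp_of_av hD (av_of_one hD ⟨B, h1, fun a x ha hx => ?_⟩))
    obtain ⟨y, h3, h4, h5⟩ := h2 a x ha ((hpi a x).mpr hx)
    exact ⟨y, h3, (hpi a y).mp h4, (hD.faltings a x y hx ((hpi a y).mp h4)).mp h5.symm⟩
  have sone : Q1 D → ∃ B : ℕ × ℕ → ℕ, Computable B ∧ ∀ a x, dom N₀ 1 a = true → s (a, x) = true →
      ∃ y < B a, s (a, y) = true ∧ D.frob (a, y) = D.frob (a, x) := by
    intro h
    obtain ⟨B, h1, h2⟩ := codes h
    exact ⟨B, h1, fun a x _ hx => ⟨x, h2 a x ((hsi a x).mp hx).1, hx, rfl⟩⟩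
  have ofsone : (∃ B : ℕ × ℕ → ℕ, Computable B ∧ ∀ a x, dom N₀ 1 a = true → s (a, x) = true →
      ∃ y < B a, s (a, y) = true ∧ D.frob (a, y) = D.frob (a, x)) → Q1 D := by
    rintro ⟨B, h1, h2⟩
    refine q1_of_pp hD hN hm (pp_of_av hD (av_mono (av_of_simple hD
      ⟨B, h1, fun a x ha hx hsx => ?_⟩)))
    obtain ⟨y, h3, h4, h5⟩ := h2 a x ha ((hsi a x).mpr ⟨hx, hsx⟩)
    have h6 := ((hsi a y).mp h4).1
    exact ⟨y, h3, h6, (hD.faltings a x y hx h6).mp h5.symm⟩
  tfae_have 1 → 4 := by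
    intro h
    obtain ⟨n, h1, h2⟩ := a01.mp (one h)
    exact ⟨n, h1, fun N g h3 h4 => (hcl (N, g)).trans (h2 (N, g) (hdi N g h3 h4))⟩
  tfae_have 4 → 1 := by
    rintro ⟨n, h1, h2⟩
    refine ofone (a01.mpr ⟨n, h1, fun a ha => ?_⟩)
    obtain ⟨N, g⟩ := a
    obtain ⟨h5, h6⟩ := (dom_iff _ _ _).mp ha
    exact (hcl (N, g)).symm.trans (h2 N g h5 h6)
  tfae_have 1 → 5 := fun h => (a02.mp (one h)).of_eq fun z =>
    and_congr (dom_iff _ _ _) (exists_congr fun x => and_congr_left' (hpi _ x))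
  tfae_have 5 → 1 := fun h => ofone (a02.mpr (h.of_eq fun z =>
    and_congr (dom_iff _ _ _).symm (exists_congr fun x => and_congr_left' (hpi _ x).symm)))
  have hd1 : ∀ a : ℕ × ℕ, dom N₀ 1 a = true ↔ N₀ ∣ a.1 := fun a =>
    (dom_iff _ _ _).trans ⟨fun h => h.1, fun h => ⟨h, one_dvd _⟩⟩
  tfae_have 1 → 6 := by
    intro h
    obtain ⟨n, h1, h2⟩ := b01.mp (sone h)
    exact ⟨n, h1, fun N g h3 => (hcs (N, g)).trans (h2 (N, g) ((hd1 _).mpr h3))⟩
  tfae_have 6 → 1 := by
    rintro ⟨n, h1, h2⟩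
    refine ofsone (b01.mpr ⟨n, h1, fun a ha => ?_⟩)
    obtain ⟨N, g⟩ := a
    exact (hcs (N, g)).symm.trans (h2 N g ((hd1 _).mp ha))
  tfae_have 1 → 7 := fun h => (b02.mp (sone h)).of_eq fun z =>
    and_congr (hd1 _) (exists_congr fun x => and_congr_left' (hsi _ x))
  tfae_have 7 → 1 := fun h => ofsone (b02.mpr (h.of_eq fun z =>
    and_congr (hd1 _).symm (exists_congr fun x => and_congr_left' (hsi _ x).symm)))
  tfae_finish

end Pool.Agent.Results.MP_07b2d0_nt.Decidability
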