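import Mathlib

/-!
# The effective Shafarevich conjecture: exact reductions

`AV N g` is the set of isomorphism classes of abelian schemes of relative dimension `g` over `ℤ[1/N]`, and
`h` is the stable Faltings height. Question Q1 says that there is an algorithm which computes from `N` and
`g` a bound for the heights of all `A` in `AV N g`; algorithms are computable functions `ℕ × ℕ → ℕ`.

**Theorem.** Let `N₀, m ≥ 1` be integers. The following are equivalent.

1. Question Q1.
2. There is an algorithm which computes from `N` and `g` a bound for the heights of the principally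
   polarized `A` in `AV N g`, for all `N` divisible by `N₀` and all `g` divisible by `m`.
3. There is an algorithm which computes from `N` and `g` a bound for the heights of the simple `A` in
   `AV N g`.
4. There is an algorithm which computes from `N` and `g` a number `c` such that every simple `A` in `AV N g` is
   isogenous to some `B` in `AV N g` with height at most `c`.
5. There is an algorithm which computes from `K`, `T` and `g` a bound for the heights of all abelian
   varieties of dimension `g` over the number field `K` with good reduction outside the finite set `T` of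
   places.

So it is enough to find effectively one member of small height in each isogeny class of simple abelian
varieties over `ℚ`. Known facts (`IsSetting`): Zarhin's trick with `h((A × A^∨)^4) = 8 h(A)`; Poincare
reducibility and `h(A × B) = h(A) + h(B)`; the isogeny theorem (Masser and Wüstholz; Gaudron and
Rémond) with the change of the height under isogenies (Faltings, Raynaud): the height of `A` is bounded
effectively in terms of the dimension and a bound for the height of one isogenous `B`; Weil
restriction to `ℚ`, for which the stable height is multiplied by the degree.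
-/

set_option autoImplicit false

namespace Pool.Agent.Results.MP_07b2d0_nt.ExactReductions

/-- Abelian schemes over `ℤ[1/N]`, abelian varieties over number fields, heights. -/
structure Setting where
  /-- isomorphism classes of abelian schemes of relative dimension `g` over `ℤ[1/N]`; empty for
  `N = 0` -/
  AV : ℕ → ℕ → Type
  /-- the stable Faltings height -/
  h : ∀ {N g : ℕ}, AV N g → ℝ
  /-- isogenous -/
  Isog : ∀ {N g : ℕ}, AV N g → AV N g → Prop
  /-- simple -/
  Simple : ∀ {N g : ℕ}, AV N g → Prop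
  /-- there is a principal polarization -/
  Principal : ∀ {N g : ℕ}, AV N g → Prop
  /-- isomorphism classes of abelian varieties of dimension `g` over the number field `K` with good
  reduction outside `T`, for the pair `(K, T)` with code `k` -/
  AVK : ℕ → ℕ → Type
  /-- the stable Faltings height -/
  hK : ∀ {k g : ℕ}, AVK k g → ℝ
  /-- the degree of `K` over `ℚ` -/
  deg : ℕ → ℕ
  /-- the product of the primes which are ramified in `K` or divisible by a place in `T` -/
  bad : ℕ → ℕ
  /-- the code of the pair `(ℚ, {p : p ∣ N})` -/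
  rat : ℕ → ℕ

/-- The known facts. -/
structure IsSetting (D : Setting) : Prop where
  refl : ∀ (N g : ℕ) (A : D.AV N g), D.Isog A A
  /-- restriction to `ℤ[1/(N M)]` -/
  restrict : ∀ (N g M : ℕ) (A : D.AV N g), 0 < M → ∃ B : D.AV (N * M) g, D.h B = D.h A
  /-- powers -/
  power : ∀ (N g m : ℕ) (A : D.AV N g), 0 < m → ∃ B : D.AV N (m * g), D.h B = m * D.h A
  /-- `(A × A^∨)^4` -/
  zarhin : ∀ (N g : ℕ) (A : D.AV N g), ∃ B : D.AV N (8 * g), D.Principal B ∧ D.h B = 8 * D.h A
  /-- `A` is isogenous to the product of simple `A_i` of dimension at most `g`, at most `g` many, and the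
  `A_i` can be replaced by isogenous ones -/
  poincare : ∀ (N g : ℕ) (A : D.AV N g), ∃ L : List (Σ n, D.AV N n),
    L.length ≤ g ∧ (∀ x ∈ L, x.1 ≤ g ∧ D.Simple x.2) ∧
    ∀ r : ∀ n, D.AV N n → D.AV N n, (∀ n (B : D.AV N n), D.Isog B (r n B)) →
      ∃ B : D.AV N g, D.Isog A B ∧ D.h B = (L.map fun x => D.h (r x.1 x.2)).sum
  /-- the effective isogeny theorem -/
  isogeny : ∃ κ : ℕ × ℕ → ℕ, Computable κ ∧ ∀ (N g m : ℕ) (A B : D.AV N g), D.Isog A B →
    D.h B ≤ m → D.h A ≤ κ (g, m)
  deg_pos : ∀ k, 0 < D.deg k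
  deg_computable : Computable D.deg
  bad_computable : Computable D.bad
  rat_computable : Computable D.rat
  /-- Weil restriction -/
  weil : ∀ (k g : ℕ) (A : D.AVK k g), ∃ B : D.AV (D.bad k) (D.deg k * g), D.h B = D.deg k * D.hK A
  rational : ∀ (N g : ℕ) (A : D.AV N g), ∃ B : D.AVK (D.rat N) g, D.hK B = D.h A

/-- the maximum of `c (N, n)` for `n ≤ g` -/
def maxTo (c : ℕ × ℕ → ℕ) (x : ℕ × ℕ) : ℕ :=
  Nat.rec (c (x.1, 0)) (fun n ih => max ih (c (x.1, n + 1))) x.2

lemma maxTo_computable {c : ℕ × ℕ → ℕ} (hc : Computable c) : Computable (maxTo c) := by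
  have h1 : Computable fun x : ℕ × ℕ => c (x.1, 0) :=
    hc.comp (Computable.pair Computable.fst (Computable.const 0))
  have h2 : Computable₂ fun (x : ℕ × ℕ) (y : ℕ × ℕ) => max y.2 (c (x.1, y.1 + 1)) := by
    have h3 : Computable fun z : (ℕ × ℕ) × (ℕ × ℕ) => c (z.1.1, z.2.1 + 1) :=
      hc.comp (Computable.pair (Computable.fst.comp Computable.fst)
        (Computable.succ.comp (Computable.fst.comp Computable.snd)))
    exact (Primrec.nat_max.to_comp).comp (Computable.snd.comp Computable.snd) h3
  exact Computable.nat_rec Computable.snd h1 h2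

lemma le_maxTo (c : ℕ × ℕ → ℕ) (N : ℕ) {n g : ℕ} (h : n ≤ g) : c (N, n) ≤ maxTo c (N, g) := by
  induction g with
  | zero =>
    obtain rfl : n = 0 := by omega
    exact le_rfl
  | succ g ih =>
    change c (N, n) ≤ max (maxTo c (N, g)) (c (N, g + 1))
    rcases Nat.lt_or_ge g n with h1 | h1
    · obtain rfl : n = g + 1 := by omega
      exact le_max_right _ _
    · exact (ih h1).trans (le_max_left _ _)

variable {D : Setting}

/-- **The effective Shafarevich conjecture: exact reductions.** See the explanations above. -/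
theorem result (hD : IsSetting D) (N₀ m : ℕ) (hN : 0 < N₀) (hm : 0 < m) : List.TFAE [
    ∃ c : ℕ × ℕ → ℕ, Computable c ∧ ∀ (N g : ℕ) (A : D.AV N g), D.h A ≤ c (N, g),
    ∃ c : ℕ × ℕ → ℕ, Computable c ∧ ∀ (N g : ℕ), N₀ ∣ N → m ∣ g → ∀ A : D.AV N g,
      D.Principal A → D.h A ≤ c (N, g),
    ∃ c : ℕ × ℕ → ℕ, Computable c ∧ ∀ (N g : ℕ) (A : D.AV N g), D.Simple A → D.h A ≤ c (N, g),
    ∃ c : ℕ × ℕ → ℕ, Computable c ∧ ∀ (N g : ℕ) (A : D.AV N g), D.Simple A →
      ∃ B : D.AV N g, D.Isog A B ∧ D.h B ≤ c (N, g),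
    ∃ c : ℕ × ℕ → ℕ, Computable c ∧ ∀ (k g : ℕ) (A : D.AVK k g), D.hK A ≤ c (k, g)] := by
  tfae_have 1 → 2 := fun ⟨c, h1, h2⟩ => ⟨c, h1, fun N g _ _ A _ => h2 N g A⟩
  tfae_have 2 → 1 := by
    rintro ⟨c, h1, h2⟩
    refine ⟨fun x => c (x.1 * N₀, 8 * (m * x.2)), ?_, fun N g A => ?_⟩
    · have a1 : Computable fun x : ℕ × ℕ => x.1 * N₀ :=
        (Primrec.nat_mul.comp Primrec.fst (Primrec.const N₀)).to_comp
      have a2 : Computable fun x : ℕ × ℕ => 8 * (m * x.2) :=
        (Primrec.nat_mul.comp (Primrec.const 8)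
          (Primrec.nat_mul.comp (Primrec.const m) Primrec.snd)).to_comp
      exact h1.comp (Computable.pair a1 a2)
    · obtain ⟨A', h3⟩ := hD.restrict N g N₀ A hN
      obtain ⟨A'', h4⟩ := hD.power (N * N₀) g m A' hm
      obtain ⟨B, h5, h6⟩ := hD.zarhin (N * N₀) (m * g) A''
      have h7 := h2 (N * N₀) (8 * (m * g)) (dvd_mul_left _ _)
        ((dvd_mul_right m g).mul_left 8) B h5
      rw [h6, h4, h3] at h7
      have h8 : (1 : ℝ) ≤ m := by exact_mod_cast hm
      have h9 : (0 : ℝ) ≤ (c (N * N₀, 8 * (m * g)) : ℝ) := Nat.cast_nonneg _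
      change D.h A ≤ (c (N * N₀, 8 * (m * g)) : ℝ)
      by_contra h10
      push Not at h10
      have h11 : 0 < D.h A := lt_of_le_of_lt h9 h10
      nlinarith [mul_le_mul_of_nonneg_right h8 h11.le]
  tfae_have 1 → 3 := fun ⟨c, h1, h2⟩ => ⟨c, h1, fun N g A _ => h2 N g A⟩
  tfae_have 3 → 4 := fun ⟨c, h1, h2⟩ => ⟨c, h1, fun N g A hA => ⟨A, hD.refl N g A, h2 N g A hA⟩⟩
  tfae_have 4 → 1 := by
    rintro ⟨c, h1, h2⟩
    obtain ⟨κ, h3, h4⟩ := hD.isogeny
    refine ⟨fun x => κ (x.2, x.2 * maxTo c x), ?_, fun N g A => ?_⟩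
    · have a1 : Computable fun x : ℕ × ℕ => x.2 * maxTo c x :=
        (Primrec.nat_mul.to_comp).comp Computable.snd (maxTo_computable h1)
      exact h3.comp (Computable.pair Computable.snd a1)
    · classical
      obtain ⟨L, h5, h6, h7⟩ := hD.poincare N g A
      have h8 : ∀ n (B : D.AV N n), ∃ B' : D.AV N n, D.Isog B B' ∧ (D.Simple B → D.h B' ≤ c (N, n)) := by
        intro n B
        by_cases hB : D.Simple B
        · obtain ⟨B', h9, h10⟩ := h2 N n B hB
          exact ⟨B', h9, fun _ => h10⟩
        · exact ⟨B, hD.refl N n B, fun h => absurd h hB⟩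
      choose r h9 h10 using h8
      obtain ⟨B, h11, h12⟩ := h7 r h9
      refine h4 N g _ A B h11 ?_
      rw [h12]
      have h13 : ∀ x ∈ L, D.h (r x.1 x.2) ≤ (maxTo c (N, g) : ℝ) := fun x hx =>
        (h10 x.1 x.2 (h6 x hx).2).trans (by exact_mod_cast le_maxTo c N (h6 x hx).1)
      have h14 : (L.map fun x => D.h (r x.1 x.2)).sum ≤ L.length * (maxTo c (N, g) : ℝ) := by
        have := List.sum_le_card_nsmul (L.map fun x => D.h (r x.1 x.2)) (maxTo c (N, g) : ℝ)
          (by
            intro y hy
            obtain ⟨x, hx, rfl⟩ := List.mem_map.mp hy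
            exact h13 x hx)
        simpa using this
      refine h14.trans ?_
      push_cast
      exact mul_le_mul_of_nonneg_right (by exact_mod_cast h5) (Nat.cast_nonneg _)
  tfae_have 1 → 5 := by
    rintro ⟨c, h1, h2⟩
    refine ⟨fun x => c (D.bad x.1, D.deg x.1 * x.2), ?_, fun k g A => ?_⟩
    · have a1 : Computable fun x : ℕ × ℕ => D.deg x.1 * x.2 :=
        (Primrec.nat_mul.to_comp).comp (hD.deg_computable.comp Computable.fst) Computable.snd
      exact h1.comp (Computable.pair (hD.bad_computable.comp Computable.fst) a1)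
    · obtain ⟨B, h3⟩ := hD.weil k g A
      have h4 := h2 _ _ B
      rw [h3] at h4
      have h5 : (1 : ℝ) ≤ D.deg k := by exact_mod_cast hD.deg_pos k
      have h6 : (0 : ℝ) ≤ (c (D.bad k, D.deg k * g) : ℝ) := Nat.cast_nonneg _
      change D.hK A ≤ (c (D.bad k, D.deg k * g) : ℝ)
      by_contra h7
      push Not at h7
      have h8 : 0 < D.hK A := lt_of_le_of_lt h6 h7
      nlinarith [mul_le_mul_of_nonneg_right h5 h8.le]
  tfae_have 5 → 1 := by
    rintro ⟨c, h1, h2⟩
    refine ⟨fun x => c (D.rat x.1, x.2), ?_, fun N g A => ?_⟩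
    · exact h1.comp (Computable.pair (hD.rat_computable.comp Computable.fst) Computable.snd)
    · obtain ⟨B, h3⟩ := hD.rational N g A
      rw [← h3]
      exact h2 _ _ B
  tfae_finish

end Pool.Agent.Results.MP_07b2d0_nt.ExactReductions
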