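import Pool.Agent.Q328.AC.Most

/-!
# The effective Shafarevich conjecture: weak algorithms are enough

Numbers are used as codes of abelian schemes over `ℤ[1/N]`; an algorithm is a computable function
(Mathlib's `Computable`). Question Q1 says that there is an algorithm which computes from `N` and `g` a
bound for the stable Faltings heights of all abelian schemes `A` of relative dimension `g` over
`ℤ[1/N]`.

**Theorem.** The following are equivalent.

1. Question Q1.
2. (Average case.) There is an algorithm which computes from `N` and `g` a number which is a bound for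
   these heights for most `(N, g)`: for every `X` there are at most `X ^ 2 / ψ X` exceptions with
   `1 ≤ N, g ≤ X`. Here `ψ` is some computable function which is not bounded (the conditions `m ≤ X`,
   `m ≤ ψ X` have a solution for every `m`), for example a very slowly growing one.
3. There is an algorithm which computes from `N` and `g` a number which is for most `(N, g)`, in the
   same sense, the number of isomorphism classes of abelian schemes of relative dimension `g` over
   `ℤ[1/N]`.
4. (Frequency.) For some `n ≥ 1` there is an algorithm which gives for any `n` different questions of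
   the form Are there more than `m` isomorphism classes of abelian schemes of relative dimension `g`
   over `ℤ[1/N]`? `n` answers, of which more than half are right.
5. (Cardinality.) For some `n ≥ 1` there is an algorithm which computes for any `n` different such
   questions a number `e ≤ n` which is not the number of questions with the answer yes.

So it is not necessary to know for which `(N, g)` in (2) and (3), and which of the answers in (4), the
algorithm is right; and in (5) it says only that one out of `n + 1` possibilities is wrong. The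
proofs use that abelian schemes over `ℤ[1/N]` of relative dimension `g` give such over
`ℤ[1/(N M)]` and of relative dimension `m g`, so that Q1 for `(N, g)` follows from Q1 for one
(unknown) pair among many, and that the questions in (4) and (5) form a recursively enumerable set,
by the theorem of Faltings and Zarhin.
-/

set_option autoImplicit false

namespace Pool.Agent.Results.MP_07b2d0_nt.WeakAlgorithms

open Pool.Agent.Q49.EF Pool.Agent.Q328.AC

/-- Abelian schemes over `ℤ[1/N]`. -/
structure Setting where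
  /-- `AV (N, g) x`: `x` is the least code of an abelian scheme of relative dimension `g` over `ℤ[1/N]`
  (isomorphic ones are identified); false for `N = 0` and for `g = 0` -/
  AV : ℕ × ℕ → ℕ → Prop
  /-- the stable Faltings height of the abelian scheme with code `x` -/
  h : ℕ → ℝ

/-- The known facts. -/
structure IsSetting (D : Setting) : Prop where
  pos : ∀ N g x, D.AV (N, g) x → 1 ≤ N ∧ 1 ≤ g
  /-- one can decide isomorphism, good reduction and being (a code of) an abelian variety of dimension
  `g` over `ℚ` -/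
  decidable : ComputablePred fun z : (ℕ × ℕ) × ℕ => D.AV z.1 z.2
  /-- Faltings, Zarhin -/
  finite : ∀ a, {x | D.AV a x}.Finite
  /-- upper bounds for the height of a given abelian scheme can be computed -/
  upper : ∃ u : ℕ → ℕ, Computable u ∧ ∀ a x, D.AV a x → D.h x ≤ u x
  /-- the abelian schemes of bounded height can be found effectively -/
  northcott : ∃ B : (ℕ × ℕ) × ℕ → ℕ, Computable B ∧ ∀ (a : ℕ × ℕ) (m x : ℕ), D.AV a x → D.h x ≤ m →
    x < B (a, m)
  /-- restriction to `ℤ[1/(N M)]` -/
  restrict : ∀ N g M x, 0 < M → D.AV (N, g) x → ∃ y, D.AV (N * M, g) y ∧ D.h y = D.h x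
  /-- powers -/
  power : ∀ N g m x, 0 < m → D.AV (N, g) x → ∃ y, D.AV (N, m * g) y ∧ D.h y = m * D.h x

variable {D : Setting}

lemma le_of_mul_le {x c m : ℝ} (hm : 1 ≤ m) (hc : 0 ≤ c) (h : m * x ≤ c) : x ≤ c := by
  by_contra h1
  push Not at h1
  have h2 : 0 < x := lt_of_le_of_lt hc h1
  nlinarith [mul_le_mul_of_nonneg_right hm h2.le]

attribute [local irreducible] Nat.unpair Nat.pair

/-- **Weak algorithms are enough.** See the explanations above. -/
theorem result (hD : IsSetting D) : List.TFAE [
    ∃ c : ℕ × ℕ → ℕ, Computable c ∧ ∀ a x, D.AV a x → D.h x ≤ c a,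
    ∃ c : ℕ × ℕ → ℕ, Computable c ∧ Most fun a => ∀ x, D.AV a x → D.h x ≤ c a,
    ∃ n : ℕ × ℕ → ℕ, Computable n ∧ Most fun a => {x | D.AV a x}.ncard = n a,
    Frequent fun z : (ℕ × ℕ) × ℕ => z.2 < {x | D.AV z.1 x}.ncard,
    Excludes fun z : (ℕ × ℕ) × ℕ => z.2 < {x | D.AV z.1 x}.ncard] := by
  classical
  obtain ⟨p, hp, hp'⟩ := ComputablePred.computable_iff.mp hD.decidable
  have hpi : ∀ a x, p (a, x) = true ↔ D.AV a x := fun a x => (iff_of_eq (congrFun hp' (a, x))).symm
  have hps : ∀ a, {x | D.AV a x} = {x | p (a, x) = true} := fun a =>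
    Set.ext fun x => (hpi a x).symm
  have hpf : ∀ a, {x | p (a, x) = true}.Finite := fun a => hps a ▸ hD.finite a
  obtain ⟨u, hu, hu'⟩ := hD.upper
  simp only [hps]
  -- Q1 bounds the codes, and conversely
  have codes : (∃ c : ℕ × ℕ → ℕ, Computable c ∧ ∀ a x, D.AV a x → D.h x ≤ c a) →
      ∃ B : ℕ × ℕ → ℕ, Computable B ∧ ∀ a x, p (a, x) = true → x < B a := by
    rintro ⟨c, h1, h2⟩
    obtain ⟨B, h3, h4⟩ := hD.northcott
    exact ⟨fun a => B (a, c a), h3.comp (Computable.pair Computable.id h1),
      fun a x hx => h4 a _ x ((hpi a x).mp hx) (h2 a x ((hpi a x).mp hx))⟩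
  have ofcodes : (∃ B : ℕ × ℕ → ℕ, Computable B ∧ ∀ a x, p (a, x) = true → x < B a) →
      ∃ c : ℕ × ℕ → ℕ, Computable c ∧ ∀ a x, D.AV a x → D.h x ≤ c a := by
    rintro ⟨B, h1, h2⟩
    refine ⟨fun a => mx (fun z : (ℕ × ℕ) × ℕ => u z.2) a (B a),
      mx_comp (hu.comp Computable.snd) h1, fun a x hx => (hu' a x hx).trans ?_⟩
    exact_mod_cast le_mx (fun z : (ℕ × ℕ) × ℕ => u z.2) a (h2 a x ((hpi a x).mpr hx))
  -- the multiples
  have up : ∀ (N g s r x : ℕ), D.AV (N, g) x →
      ∃ y, D.AV (N * (s + 1), g * (r + 1)) y ∧ ∀ C : ℕ, D.h y ≤ C → D.h x ≤ C := by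
    intro N g s r x hx
    obtain ⟨x', h3, h4⟩ := hD.restrict N g (s + 1) x (Nat.succ_pos _) hx
    obtain ⟨y, h5, h6⟩ := hD.power (N * (s + 1)) g (r + 1) x' (Nat.succ_pos _) h3
    refine ⟨y, by rwa [mul_comm g (r + 1)], fun C hC => ?_⟩
    rw [h6, h4] at hC
    exact le_of_mul_le (by exact_mod_cast Nat.succ_pos r) (Nat.cast_nonneg _) hC
  have comps : ∀ X : ℕ × ℕ → ℕ, Computable X →
      Computable (fun a : ℕ × ℕ => (X a / a.1) * (X a / a.2)) ∧
      Computable fun z : (ℕ × ℕ) × ℕ =>
        (z.1.1 * (z.2 / (X z.1 / z.1.2) + 1), z.1.2 * (z.2 % (X z.1 / z.1.2) + 1)) := by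
    intro X hX
    have d : Primrec fun z : ℕ × ℕ => z.1 / z.2 := Primrec.nat_div.comp Primrec.fst Primrec.snd
    have m : Primrec fun z : ℕ × ℕ => z.1 * z.2 := Primrec.nat_mul.comp Primrec.fst Primrec.snd
    have r : Primrec fun z : ℕ × ℕ => z.1 % z.2 := Primrec.nat_mod.comp Primrec.fst Primrec.snd
    have e1 : Computable fun a : ℕ × ℕ => X a / a.1 :=
      Computable.comp (f := fun z : ℕ × ℕ => z.1 / z.2) d.to_comp
        (Computable.pair hX Computable.fst)
    have e2 : Computable fun a : ℕ × ℕ => X a / a.2 :=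
      Computable.comp (f := fun z : ℕ × ℕ => z.1 / z.2) d.to_comp
        (Computable.pair hX Computable.snd)
    have e3 : Computable fun z : (ℕ × ℕ) × ℕ => X z.1 / z.1.2 := e2.comp Computable.fst
    have e4 : Computable fun z : (ℕ × ℕ) × ℕ => z.2 / (X z.1 / z.1.2) :=
      Computable.comp (f := fun z : ℕ × ℕ => z.1 / z.2) d.to_comp
        (Computable.pair Computable.snd e3)
    have e5 : Computable fun z : (ℕ × ℕ) × ℕ => z.2 % (X z.1 / z.1.2) :=
      Computable.comp (f := fun z : ℕ × ℕ => z.1 % z.2) r.to_comp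
        (Computable.pair Computable.snd e3)
    have e6 : Computable fun z : (ℕ × ℕ) × ℕ => z.1.1 * (z.2 / (X z.1 / z.1.2) + 1) :=
      Computable.comp (f := fun z : ℕ × ℕ => z.1 * z.2) m.to_comp
        (Computable.pair (Computable.fst.comp Computable.fst) (Computable.succ.comp e4))
    have e7 : Computable fun z : (ℕ × ℕ) × ℕ => z.1.2 * (z.2 % (X z.1 / z.1.2) + 1) :=
      Computable.comp (f := fun z : ℕ × ℕ => z.1 * z.2) m.to_comp
        (Computable.pair (Computable.snd.comp Computable.fst) (Computable.succ.comp e5))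
    have e8 : Computable fun a : ℕ × ℕ => (X a / a.1) * (X a / a.2) :=
      Computable.comp (f := fun z : ℕ × ℕ => z.1 * z.2) m.to_comp (Computable.pair e1 e2)
    exact ⟨e8, Computable.pair e6 e7⟩
  tfae_have 1 → 2 := fun ⟨c, h1, h2⟩ => ⟨c, h1, most_of_forall h2⟩
  tfae_have 2 → 1 := by
    rintro ⟨c, h1, h2⟩
    obtain ⟨X, hX, h3⟩ := half_of_most h2
    obtain ⟨e1, e2⟩ := comps X hX
    refine bound_of_half (G := D.AV) (h := D.h) e1 e2 h1 ?_ ?_
    · rintro ⟨N, g⟩ ⟨x, hx⟩
      obtain ⟨hN, hg⟩ := hD.pos N g x hx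
      have h4 := h3 N g hN hg
      have h5 : 0 < ((Finset.range ((X (N, g) / N) * (X (N, g) / g))).filter fun i =>
          ∀ x, D.AV (N * (i / (X (N, g) / g) + 1), g * (i % (X (N, g) / g) + 1)) x →
            D.h x ≤ c (N * (i / (X (N, g) / g) + 1), g * (i % (X (N, g) / g) + 1))).card := by
        by_contra h6
        have h7 := Nat.eq_zero_of_not_pos h6
        rw [h7] at h4
        exact absurd h4 (by omega)
      obtain ⟨i, hi⟩ := Finset.card_pos.mp h5
      rw [Finset.mem_filter, Finset.mem_range] at hi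
      exact ⟨i, hi.1, hi.2⟩
    · rintro ⟨N, g⟩ i x hx _
      exact up N g _ _ x hx
  tfae_have 1 → 3 := by
    intro h
    obtain ⟨B, h1, h2⟩ := codes h
    obtain ⟨n, h3, h4⟩ := card_of_bound hp h1 h2
    exact ⟨n, h3, most_of_forall h4⟩
  tfae_have 3 → 1 := by
    rintro ⟨n, h1, h2⟩
    obtain ⟨X, hX, h3⟩ := half_of_most h2
    obtain ⟨e1, e2⟩ := comps X hX
    have hd : Computable fun a : ℕ × ℕ => (decide (1 ≤ a.1) && decide (1 ≤ a.2)) :=
      (Primrec.and.comp (Primrec.nat_le.decide.comp (Primrec.const 1) Primrec.fst)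
        (Primrec.nat_le.decide.comp (Primrec.const 1) Primrec.snd)).to_comp
    obtain ⟨c, h4, h5⟩ := bound_of_half_card hp hpf (h := D.h) hu
      (fun a x hx => hu' a x ((hpi a x).mp hx)) e1 e2 h1 hd
      (fun a x hx => by
        obtain ⟨N, g⟩ := a
        obtain ⟨h6, h7⟩ := hD.pos N g x ((hpi _ x).mp hx)
        simp [h6, h7])
      (P := fun a => {x | p (a, x) = true}.ncard = n a) (fun _ h => h)
      (fun a ha => by
        obtain ⟨N, g⟩ := a
        simp only [Bool.and_eq_true, decide_eq_true_eq] at ha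
        exact h3 N g ha.1 ha.2)
      (fun a i x hx _ => by
        obtain ⟨N, g⟩ := a
        obtain ⟨y, h6, h7⟩ := up N g (i / (X (N, g) / g)) (i % (X (N, g) / g)) x ((hpi _ x).mp hx)
        exact ⟨y, (hpi _ y).mpr h6, h7⟩)
    exact ⟨c, h4, fun a x hx => h5 a x ((hpi a x).mpr hx)⟩
  tfae_have 1 → 4 := by
    intro h
    obtain ⟨B, h1, h2⟩ := codes h
    exact frequent_of_computable (more_of_bound hp h1 h2)
  tfae_have 4 → 5 := excludes_of_frequent
  tfae_have 5 → 1 := by
    intro h
    refine ofcodes (bound_of_more hp hpf ?_)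
    have b5 : Computable fun w : ((ℕ × ℕ) × ℕ) × ℕ => (w.1.1, w.2) :=
      Computable.pair (Computable.fst.comp Computable.fst) Computable.snd
    have b6 : Computable fun w : ((ℕ × ℕ) × ℕ) × ℕ => cnt p w.1.1 w.2 :=
      (cnt_computable hp).comp b5
    have b7 : Computable fun w : ((ℕ × ℕ) × ℕ) × ℕ => (w.1.2, cnt p w.1.1 w.2) :=
      Computable.pair (Computable.snd.comp Computable.fst) b6
    have hq : Computable fun w : ((ℕ × ℕ) × ℕ) × ℕ => lt' (w.1.2, cnt p w.1.1 w.2) :=
      lt'_computable.comp b7
    have hdec : Primrec fun m : ℕ =>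
        (((m.unpair.1.unpair.1, m.unpair.1.unpair.2), m.unpair.2) : (ℕ × ℕ) × ℕ) := by
      have v : Primrec fun m : ℕ => m.unpair.1 := Primrec.fst.comp Primrec.unpair
      have w : Primrec fun m : ℕ => m.unpair.2 := Primrec.snd.comp Primrec.unpair
      exact Primrec.pair (Primrec.pair (v.comp v) (w.comp v)) w
    have henc : Computable fun z : (ℕ × ℕ) × ℕ => Nat.pair (Nat.pair z.1.1 z.1.2) z.2 := by
      have v : Primrec fun z : ℕ × ℕ => Nat.pair z.1 z.2 :=
        Primrec₂.natPair.comp Primrec.fst Primrec.snd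
      exact (v.comp (Primrec.pair (v.comp Primrec.fst) Primrec.snd)).to_comp
    refine computable_of_excludes hdec henc ?_ ?_ hq ?_ h
    · rintro ⟨⟨N, g⟩, m⟩
      simp
    · intro m
      simp
    · rintro ⟨a, m⟩
      exact (more_iff (hpf a) m).trans (exists_congr fun t => (lt'_iff _ _).symm)
  tfae_finish

end Pool.Agent.Results.MP_07b2d0_nt.WeakAlgorithms
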